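import Pool.Agent.MP_5159fa_co.Mg.Reg

set_option autoImplicit false

namespace Pool.Agent.Results.MP_d802e4_co.MaxDegFour

open Pool.Agent.MP_d802e4_co

universe u

/-- There is a bound `g` such that every simple graph (finite or not) in which every vertex has at
most four neighbours and every cycle has length at least `g` has chromatic number at most three. -/
theorem result :
    ∃ g : ℕ, ∀ (V : Type u) (G : SimpleGraph V),
      (∀ v : V, (G.neighborSet v).encard ≤ 4) →
      (∀ (v : V) (w : G.Walk v v), w.IsCycle → g ≤ w.length) →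
      G.chromaticNumber ≤ 3 := by
  classical
  obtain ⟨g, hg⟩ := Pool.Agent.MP_5159fa_co.deg_four
  refine ⟨g, fun V G h4 hc => ?_⟩
  have hG : (g : ℕ∞) ≤ G.egirth :=
    SimpleGraph.le_egirth.2 fun a w hw => by exact_mod_cast hc a w hw
  have key : ∀ G' : G.Subgraph, G'.verts.Finite →
      Nonempty (G'.coe →g (⊤ : SimpleGraph (Fin 3))) := by
    intro G' hfin
    have : Finite G'.verts := hfin.to_subtype
    obtain ⟨n, ⟨e⟩⟩ := Finite.exists_equiv_fin G'.verts
    let H : SimpleGraph (Fin n) := G'.coe.comap e.symm
    have iso : H ≃g G'.coe := SimpleGraph.Iso.comap e.symm G'.coe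
    have hcont : H.IsContained G := iso.isContained.trans G'.coe_isContained
    have hH : H.Colorable 3 := by
      refine hg (Fin n) H (fun v => ?_) (hG.trans hcont.egirth_le)
      have h1 : (((nb H v).card : ℕ) : ℕ∞) ≤ 4 := by
        rw [← Set.encard_coe_eq_coe_finsetCard]
        refine le_trans ?_ (h4 ((e.symm v : G'.verts) : V))
        refine Set.encard_le_encard_of_injOn (f := fun x => ((e.symm x : G'.verts) : V)) ?_ ?_
        · intro x hx
          have hx' : H.Adj v x := mem_nb.1 (Finset.mem_coe.1 hx)
          exact G'.adj_sub hx'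
        · intro x _ y _ hxy
          exact e.symm.injective (Subtype.ext hxy)
      exact_mod_cast h1
    obtain ⟨C⟩ := hH
    exact ⟨C.comp iso.symm.toHom⟩
  obtain ⟨f⟩ := SimpleGraph.nonempty_hom_of_forall_finite_subgraph_hom
    (G := G) (F := (⊤ : SimpleGraph (Fin 3))) fun G' h => (key G' h).some
  have hcol : G.Colorable 3 := ⟨f⟩
  exact_mod_cast hcol.chromaticNumber_le

end Pool.Agent.Results.MP_d802e4_co.MaxDegFour
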